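import Mathlib

/-!
Hausdorff dimension of the limit set of a tree of `R`-adic intervals in which every node has at
least `2 K` children.
-/

namespace Pool.H31.LW

open scoped ENNReal NNReal

theorem exists_spaced (s : Finset ℕ) (K : ℕ) (h : 2 * K ≤ s.card) :
    ∃ c : Fin K → ℕ, (∀ i, c i ∈ s) ∧ ∀ i j, i < j → c i + 2 ≤ c j := by
  let e := s.orderEmbOfFin rfl
  refine ⟨fun i => e ⟨2 * (i : ℕ), by have := i.2; omega⟩, fun i => s.orderEmbOfFin_mem rfl _, ?_⟩
  intro i j hij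
  have hij' : (i : ℕ) < j := hij
  have hj := j.2
  have h1 : e ⟨2 * (i : ℕ), by omega⟩ < e ⟨2 * (i : ℕ) + 1, by omega⟩ :=
    e.strictMono (by simp [Fin.lt_def])
  have h2 : e ⟨2 * (i : ℕ) + 1, by omega⟩ < e ⟨2 * (j : ℕ), by omega⟩ :=
    e.strictMono (by rw [Fin.lt_def]; show 2 * (i : ℕ) + 1 < 2 * (j : ℕ); omega)
  show e ⟨2 * (i : ℕ), _⟩ + 2 ≤ e ⟨2 * (j : ℕ), _⟩
  omega

section tree

variable (R K : ℕ) (ch : ℕ → ℕ → Fin K → ℕ)

/-- the node at level `m` of the path with digits `a` -/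
def path (a : ℕ → Fin K) : ℕ → ℕ
  | 0 => 0
  | m + 1 => R * path a m + ch m (path a m) (a m)

theorem path_congr (a b : ℕ → Fin K) (n : ℕ) (h : ∀ i < n, a i = b i) :
    path R K ch a n = path R K ch b n := by
  induction n with
  | zero => rfl
  | succ n ih =>
    have ih' := ih (fun i hi => h i (by omega))
    simp only [path]
    rw [ih', h n (by omega)]

/-- the limit point -/
noncomputable def lim (a : ℕ → Fin K) : ℝ := ⨆ m : ℕ, (path R K ch a m : ℝ) / (R : ℝ) ^ m

variable (hR : 0 < R) (G : ℕ → ℕ → Prop)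
  (hch : ∀ m k, G m k → ∀ i, ch m k i < R ∧ G (m + 1) (R * k + ch m k i))

include hch in
theorem path_G (h0 : G 0 0) (a : ℕ → Fin K) (m : ℕ) : G m (path R K ch a m) := by
  induction m with
  | zero => exact h0
  | succ m ih => exact (hch m _ ih (a m)).2

include hch hR in
theorem path_low (h0 : G 0 0) (a : ℕ → Fin K) (m d : ℕ) :
    (path R K ch a m : ℝ) / (R : ℝ) ^ m ≤ (path R K ch a (m + d) : ℝ) / (R : ℝ) ^ (m + d) ∧
    ((path R K ch a (m + d) : ℝ) + 1) / (R : ℝ) ^ (m + d) ≤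
      ((path R K ch a m : ℝ) + 1) / (R : ℝ) ^ m := by
  have hRr : (0 : ℝ) < R := by exact_mod_cast hR
  induction d with
  | zero => exact ⟨le_refl _, le_refl _⟩
  | succ d ih =>
    have hg := path_G R K ch G hch h0 a (m + d)
    have hc := (hch _ _ hg (a (m + d))).1
    have hs : path R K ch a (m + (d + 1)) =
        R * path R K ch a (m + d) + ch (m + d) (path R K ch a (m + d)) (a (m + d)) := rfl
    have hp : (R : ℝ) ^ (m + (d + 1)) = R * (R : ℝ) ^ (m + d) := by
      rw [← add_assoc, pow_succ]; ring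
    have hc' : ((ch (m + d) (path R K ch a (m + d)) (a (m + d)) : ℕ) : ℝ) + 1 ≤ R := by
      exact_mod_cast hc
    rw [hs, hp]
    push_cast
    set x : ℝ := (path R K ch a (m + d) : ℝ)
    set y : ℝ := ((ch (m + d) (path R K ch a (m + d)) (a (m + d)) : ℕ) : ℝ)
    have hy : 0 ≤ y := Nat.cast_nonneg _
    have hq : (0 : ℝ) < (R : ℝ) ^ (m + d) := by positivity
    constructor
    · refine le_trans ih.1 ?_
      rw [div_le_div_iff₀ hq (by positivity)]
      nlinarith
    · refine le_trans ?_ ih.2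
      rw [div_le_div_iff₀ (by positivity) hq]
      have : R * x + y + 1 ≤ R * (x + 1) := by linarith
      nlinarith

include hch hR in
theorem lim_mem (h0 : G 0 0) (a : ℕ → Fin K) (m : ℕ) :
    (path R K ch a m : ℝ) / (R : ℝ) ^ m ≤ lim R K ch a ∧
      lim R K ch a ≤ ((path R K ch a m : ℝ) + 1) / (R : ℝ) ^ m := by
  have hRr : (0 : ℝ) < R := by exact_mod_cast hR
  have key : ∀ n : ℕ, (path R K ch a n : ℝ) / (R : ℝ) ^ n ≤
      ((path R K ch a m : ℝ) + 1) / (R : ℝ) ^ m := by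
    intro n
    have h1 : ∀ j : ℕ, (path R K ch a j : ℝ) / (R : ℝ) ^ j ≤
        ((path R K ch a j : ℝ) + 1) / (R : ℝ) ^ j := by
      intro j
      have : (0 : ℝ) < (R : ℝ) ^ j := by positivity
      gcongr
      linarith
    rcases le_total n m with h | h
    · obtain ⟨d, rfl⟩ := Nat.exists_eq_add_of_le h
      exact le_trans (path_low R K ch hR G hch h0 a n d).1 (h1 _)
    · obtain ⟨d, rfl⟩ := Nat.exists_eq_add_of_le h
      exact le_trans (h1 _) (path_low R K ch hR G hch h0 a m d).2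
  constructor
  · exact le_ciSup (f := fun m : ℕ => (path R K ch a m : ℝ) / (R : ℝ) ^ m)
      ⟨_, by rintro _ ⟨n, rfl⟩; exact key n⟩ m
  · exact ciSup_le key

end tree

theorem dim_tree (R K : ℕ) (hK : 2 ≤ K) (G : ℕ → ℕ → Prop) (h0 : G 0 0)
    (hstep : ∀ m k, G m k → ∃ s : Finset ℕ, 2 * K ≤ s.card ∧
      ∀ j ∈ s, j < R ∧ G (m + 1) (R * k + j)) :
    ENNReal.ofReal (Real.log K / Real.log R) ≤
      dimH {x : ℝ | ∀ m : ℕ, ∃ k : ℕ, G m k ∧ (k : ℝ) / (R : ℝ) ^ m ≤ x ∧
        x ≤ ((k : ℝ) + 1) / (R : ℝ) ^ m} := by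
  classical
  have hKR : 2 * K ≤ R := by
    obtain ⟨s, hs, hj⟩ := hstep 0 0 h0
    have : s ⊆ Finset.range R := fun j hjs => Finset.mem_range.mpr (hj j hjs).1
    have := Finset.card_le_card this
    rw [Finset.card_range] at this
    omega
  have hR : 0 < R := by omega
  have hex : ∀ m k, ∃ c : Fin K → ℕ, G m k →
      (∀ i, c i < R ∧ G (m + 1) (R * k + c i)) ∧ ∀ i j, i < j → c i + 2 ≤ c j := by
    intro m k
    by_cases hG : G m k
    · obtain ⟨s, hs, hj⟩ := hstep m k hG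
      obtain ⟨c, hc, hc2⟩ := exists_spaced s K hs
      exact ⟨c, fun _ => ⟨fun i => hj _ (hc i), hc2⟩⟩
    · exact ⟨fun _ => 0, fun h => absurd h hG⟩
  choose ch hchh using hex
  have hch : ∀ m k, G m k → ∀ i, ch m k i < R ∧ G (m + 1) (R * k + ch m k i) :=
    fun m k h => (hchh m k h).1
  have hRr : (0 : ℝ) < R := by exact_mod_cast hR
  have hKr : (0 : ℝ) < K := by
    have : 0 < K := by omega
    exact_mod_cast this
  have hR1 : (1 : ℝ) < R := by
    have : 1 < R := by omega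
    exact_mod_cast this
  have hK1 : (1 : ℝ) < K := by
    have : 1 < K := by omega
    exact_mod_cast this
  set X : (ℕ → Fin K) → ℝ := lim R K ch with hX
  -- separation
  have hsep : ∀ (a b : ℕ → Fin K) (n : ℕ), (∀ i < n, a i = b i) → a n ≠ b n →
      ((R : ℝ) ^ (n + 1))⁻¹ ≤ |X a - X b| := by
    intro a b n hab hne
    have hp := path_congr R K ch a b n hab
    have hg := path_G R K ch G hch h0 a n
    have hgap := (hchh n _ hg).2
    have ha := lim_mem R K ch hR G hch h0 a (n + 1)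
    have hb := lim_mem R K ch hR G hch h0 b (n + 1)
    have hq : (0 : ℝ) < (R : ℝ) ^ (n + 1) := by positivity
    have sa : path R K ch a (n + 1) = R * path R K ch a n + ch n (path R K ch a n) (a n) := rfl
    have sb : path R K ch b (n + 1) = R * path R K ch a n + ch n (path R K ch a n) (b n) := by
      rw [hp]; rfl
    have main : ∀ u v : ℝ, ∀ p q : ℕ, u ≤ ((p : ℝ) + 1) / (R : ℝ) ^ (n + 1) →
        (q : ℝ) / (R : ℝ) ^ (n + 1) ≤ v → p + 2 ≤ q →
        ((R : ℝ) ^ (n + 1))⁻¹ ≤ v - u := by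
      intro u v p q hu hv hpq
      have hpq' : (p : ℝ) + 2 ≤ q := by exact_mod_cast hpq
      have h1 : ((p : ℝ) + 1) / (R : ℝ) ^ (n + 1) + ((R : ℝ) ^ (n + 1))⁻¹ ≤
          (q : ℝ) / (R : ℝ) ^ (n + 1) := by
        rw [← one_div, ← add_div]
        gcongr
        linarith
      linarith
    rcases lt_or_gt_of_ne hne with h | h
    · have h1 := hgap _ _ h
      have := main (X a) (X b) _ _ ha.2 hb.1 (by rw [sa, sb]; omega)
      rw [abs_sub_comm]
      exact le_trans this (le_abs_self _)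
    · have h1 := hgap _ _ h
      have := main (X b) (X a) _ _ hb.2 ha.1 (by rw [sa, sb]; omega)
      exact le_trans this (le_abs_self _)
  have hfirst : ∀ a b : ℕ → Fin K, a ≠ b → ∃ n, (∀ i < n, a i = b i) ∧ a n ≠ b n := by
    intro a b hab
    have : ∃ n, a n ≠ b n := by
      by_contra h
      push Not at h
      exact hab (funext h)
    refine ⟨Nat.find this, fun i hi => ?_, Nat.find_spec this⟩
    have := Nat.find_min this hi
    push Not at this
    exact this
  have hinj : Function.Injective X := by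
    intro a b hXab
    by_contra hab
    obtain ⟨n, h1, h2⟩ := hfirst a b hab
    have := hsep a b n h1 h2
    rw [hXab, sub_self, abs_zero] at this
    have : (0 : ℝ) < ((R : ℝ) ^ (n + 1))⁻¹ := by positivity
    linarith
  set r : ℝ := Real.log K / Real.log R with hr
  have hlogR : 0 < Real.log R := Real.log_pos hR1
  have hlogK : 0 < Real.log K := Real.log_pos hK1
  have hrpos : 0 < r := div_pos hlogK hlogR
  have hRr' : (R : ℝ) ^ r = K := by
    rw [Real.rpow_def_of_pos hRr, hr, mul_div_cancel₀ _ hlogR.ne', Real.exp_log hKr]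
  have : Nonempty (ℕ → Fin K) := ⟨fun _ => ⟨0, by omega⟩⟩
  set f : ℝ → ℝ := fun z => Real.ofDigits (Function.invFun X z) with hf
  have hfX : ∀ a, f (X a) = Real.ofDigits a := by
    intro a
    simp only [hf]
    rw [Function.leftInverse_invFun hinj a]
  have hholder : ∀ a b : ℕ → Fin K, |f (X a) - f (X b)| ≤ K * |X a - X b| ^ r := by
    intro a b
    by_cases hab : a = b
    · rw [hab, sub_self, abs_zero]; positivity
    obtain ⟨n, h1, h2⟩ := hfirst a b hab
    rw [hfX, hfX]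
    have h3 := Real.abs_ofDigits_sub_ofDigits_le h1
    have h4 := hsep a b n h1 h2
    have h5 : (((R : ℝ) ^ (n + 1))⁻¹) ^ r ≤ |X a - X b| ^ r :=
      Real.rpow_le_rpow (by positivity) h4 hrpos.le
    have h6 : (((R : ℝ) ^ (n + 1))⁻¹) ^ r = ((K : ℝ) ^ (n + 1))⁻¹ := by
      rw [Real.inv_rpow (by positivity), ← Real.rpow_natCast (R : ℝ) (n + 1),
        ← Real.rpow_mul hRr.le, mul_comm ((n + 1 : ℕ) : ℝ) r, Real.rpow_mul hRr.le, hRr',
        Real.rpow_natCast]
    rw [h6] at h5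
    calc _ ≤ ((K : ℝ) ^ n)⁻¹ := h3
      _ = K * ((K : ℝ) ^ (n + 1))⁻¹ := by
        rw [pow_succ]; field_simp
      _ ≤ _ := by gcongr
  set E := {x : ℝ | ∀ m : ℕ, ∃ k : ℕ, G m k ∧ (k : ℝ) / (R : ℝ) ^ m ≤ x ∧
        x ≤ ((k : ℝ) + 1) / (R : ℝ) ^ m} with hE
  have hsub : Set.range X ⊆ E := by
    rintro _ ⟨a, rfl⟩ m
    exact ⟨path R K ch a m, path_G R K ch G hch h0 a m, lim_mem R K ch hR G hch h0 a m⟩
  have hHold : HolderOnWith (K : ℝ≥0) (Real.toNNReal r) f (Set.range X) := by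
    rintro _ ⟨a, rfl⟩ _ ⟨b, rfl⟩
    rw [edist_dist, edist_dist, Real.dist_eq, Real.dist_eq,
      Real.coe_toNNReal r hrpos.le, ENNReal.ofReal_rpow_of_nonneg (abs_nonneg _) hrpos.le]
    have h1 : ((K : ℝ≥0) : ℝ≥0∞) = ENNReal.ofReal (K : ℝ) := by
      simp
    rw [h1, ← ENNReal.ofReal_mul hKr.le]
    exact ENNReal.ofReal_le_ofReal (hholder a b)
  have hdim := hHold.dimH_image_le (by rw [Real.toNNReal_pos]; exact hrpos)
  have himage : Set.Icc (0 : ℝ) 1 ⊆ f '' Set.range X := by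
    intro y hy
    obtain ⟨a, _, ha⟩ := Real.ofDigits_SurjOn (b := K) (by omega) hy
    exact ⟨X a, ⟨a, rfl⟩, by rw [hfX, ha]⟩
  have h1 : dimH (Set.Icc (0 : ℝ) 1) = 1 := by
    have := Real.dimH_of_nonempty_interior (s := Set.Icc (0 : ℝ) 1)
      (by rw [interior_Icc]; exact ⟨1 / 2, by norm_num, by norm_num⟩)
    rw [this, Module.finrank_self, Nat.cast_one]
  have h2 : (1 : ℝ≥0∞) ≤ dimH (Set.range X) / (Real.toNNReal r : ℝ≥0∞) := by
    rw [← h1]
    exact le_trans (dimH_mono himage) hdim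
  have h3 : (Real.toNNReal r : ℝ≥0∞) ≤ dimH (Set.range X) := by
    have h4 : (Real.toNNReal r : ℝ≥0∞) ≠ 0 := by
      rw [Ne, ENNReal.coe_eq_zero, Real.toNNReal_eq_zero]
      push Not
      exact hrpos
    rw [ENNReal.le_div_iff_mul_le (Or.inl h4) (Or.inl ENNReal.coe_ne_top), one_mul] at h2
    exact h2
  exact le_trans h3 (dimH_mono hsub)

end Pool.H31.LW
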