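import Mathlib

/-!
The counting engine: an infinite subtree with many children of each node of a tree with kills.
-/

namespace Pool.H31.LW

open Classical in
/-- A node `(m, k)` is alive if neither it nor one of its ancestors is killed. -/
def Alive (R : ℕ) (Kill : ℕ → ℕ → Prop) (m k : ℕ) : Prop :=
  ∀ d ≤ m, ¬ Kill (m - d) (k / R ^ d)

open Classical in
/-- `Good n m k`: the node `(m, k)` is alive, and for `n > 0` at least `H` children are
`Good (n - 1)`. -/
def Good (R H : ℕ) (Kill : ℕ → ℕ → Prop) : ℕ → ℕ → ℕ → Prop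
  | 0, m, k => Alive R Kill m k
  | n + 1, m, k => Alive R Kill m k ∧
      H ≤ ((Finset.range R).filter (fun j => Good R H Kill n (m + 1) (R * k + j))).card

variable {R H : ℕ} {Kill : ℕ → ℕ → Prop}

theorem Good.alive {n m k : ℕ} (h : Good R H Kill n m k) : Alive R Kill m k := by
  cases n with
  | zero => exact h
  | succ n => exact h.1

theorem alive_child (hR : 0 < R) {m k j : ℕ} (hj : j < R) (h : Alive R Kill m k)
    (hk : ¬ Kill (m + 1) (R * k + j)) : Alive R Kill (m + 1) (R * k + j) := by
  intro d hd
  cases d with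
  | zero => simpa using hk
  | succ d =>
    have h1 : m + 1 - (d + 1) = m - d := by omega
    have h2 : (R * k + j) / R ^ (d + 1) = k / R ^ d := by
      rw [pow_succ', ← Nat.div_div_eq_div_mul]
      congr 1
      rw [Nat.mul_add_div hR, Nat.div_eq_of_lt hj, add_zero]
    rw [h1, h2]
    exact h d (by omega)

theorem alive_anc {m k : ℕ} (h : Alive R Kill m k) (d : ℕ) (hd : d ≤ m) :
    Alive R Kill (m - d) (k / R ^ d) := by
  intro e he
  rw [Nat.div_div_eq_div_mul, ← pow_add]
  have : m - d - e = m - (d + e) := by omega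
  rw [this]
  exact h (d + e) (by omega)

open Classical in
/-- the witness set at level `m`, for depth `N` -/
noncomputable def Wit (R H : ℕ) (Kill : ℕ → ℕ → Prop) (N m : ℕ) : Finset ℕ :=
  (Finset.range (R ^ m)).filter (fun k => ∀ d ≤ m,
    Alive R Kill (m - d) (k / R ^ d) ∧ ¬ Good R H Kill (N - (m - d)) (m - d) (k / R ^ d))

theorem wit_anc {N m k : ℕ} (hR : 0 < R) (h : k ∈ Wit R H Kill N m) (d : ℕ) (hd : d ≤ m) :
    k / R ^ d ∈ Wit R H Kill N (m - d) := by
  classical
  unfold Wit at h ⊢
  rw [Finset.mem_filter, Finset.mem_range] at h ⊢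
  refine ⟨?_, ?_⟩
  · rw [Nat.div_lt_iff_lt_mul (by positivity), ← pow_add]
    have : m - d + d = m := by omega
    rw [this]; exact h.1
  · intro e he
    rw [Nat.div_div_eq_div_mul, ← pow_add]
    have : m - d - e = m - (d + e) := by omega
    rw [this]
    exact h.2 (d + e) (by omega)

open Classical in
theorem wit_step (hR : 0 < R) {N m : ℕ} (hm : m < N) :
    (R - H) * (Wit R H Kill N m).card ≤ (Wit R H Kill N (m + 1)).card +
      ((Finset.range (R ^ (m + 1))).filter
        (fun k => k / R ∈ Wit R H Kill N m ∧ Kill (m + 1) k)).card := by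
  set W := Wit R H Kill N m with hW
  set A := Wit R H Kill N (m + 1) with hA
  set B := (Finset.range (R ^ (m + 1))).filter (fun k => k / R ∈ W ∧ Kill (m + 1) k) with hB
  -- pairs (k, j) with k in W and non-good child
  let S : Finset (ℕ × ℕ) := W.sigma (fun k => (Finset.range R).filter
    (fun j => ¬ Good R H Kill (N - (m + 1)) (m + 1) (R * k + j))) |>.image (fun x => (x.1, x.2))
  have hScard : (R - H) * W.card ≤ S.card := by
    have h1 : S.card = ∑ k ∈ W, ((Finset.range R).filter
        (fun j => ¬ Good R H Kill (N - (m + 1)) (m + 1) (R * k + j))).card := by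
      simp only [S]
      rw [Finset.card_image_of_injective, Finset.card_sigma]
      rintro ⟨a, b⟩ ⟨c, d⟩ h
      simp only [Prod.mk.injEq] at h
      obtain ⟨rfl, rfl⟩ := h
      rfl
    rw [h1, mul_comm, ← smul_eq_mul, ← Finset.sum_const]
    apply Finset.sum_le_sum
    intro k hk
    have hk' := hk
    rw [hW] at hk'
    unfold Wit at hk'
    rw [Finset.mem_filter] at hk'
    have h2 := hk'.2 0 (Nat.zero_le _)
    simp only [Nat.sub_zero, pow_zero, Nat.div_one] at h2
    obtain ⟨hal, hng⟩ := h2
    obtain ⟨n, hn⟩ : ∃ n, N - m = n + 1 := ⟨N - (m + 1), by omega⟩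
    have hn' : N - (m + 1) = n := by omega
    rw [hn] at hng
    rw [hn']
    have h3 : ((Finset.range R).filter (fun j => Good R H Kill n (m + 1) (R * k + j))).card < H := by
      by_contra hcon
      push Not at hcon
      exact hng ⟨hal, hcon⟩
    have h4 := Finset.card_filter_add_card_filter_not (s := Finset.range R)
      (fun j => Good R H Kill n (m + 1) (R * k + j))
    rw [Finset.card_range] at h4
    omega
  have hSle : S.card ≤ A.card + B.card := by
    rw [← Finset.card_disjSum]
    have hmap : ∀ x ∈ S, (R * x.1 + x.2 ∈ A) ∨ (R * x.1 + x.2 ∈ B) := by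
      rintro ⟨k, j⟩ hx
      simp only [S, Finset.mem_image, Finset.mem_sigma, Finset.mem_filter, Finset.mem_range] at hx
      obtain ⟨⟨k', j'⟩, ⟨hk, hj, hng⟩, he⟩ := hx
      simp only [Prod.mk.injEq] at he
      obtain ⟨rfl, rfl⟩ := he
      simp only at hk hj hng ⊢
      have hk' := hk
      rw [hW] at hk'
      unfold Wit at hk'
      rw [Finset.mem_filter, Finset.mem_range] at hk'
      have hlt : R * k' + j' < R ^ (m + 1) := by
        rw [pow_succ']
        have : R * k' + R ≤ R * R ^ m := by
          have : R * (k' + 1) ≤ R * R ^ m := Nat.mul_le_mul_left _ hk'.1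
          linarith
        omega
      have hdiv : (R * k' + j') / R = k' := by
        rw [Nat.mul_add_div hR, Nat.div_eq_of_lt hj, add_zero]
      by_cases hkill : Kill (m + 1) (R * k' + j')
      · right
        rw [hB, Finset.mem_filter, Finset.mem_range]
        exact ⟨hlt, by rw [hdiv]; exact hk, hkill⟩
      · left
        rw [hA]
        unfold Wit
        rw [Finset.mem_filter, Finset.mem_range]
        refine ⟨hlt, ?_⟩
        have hal : Alive R Kill m k' := by
          have := (hk'.2 0 (Nat.zero_le _)).1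
          simpa using this
        intro d hd
        cases d with
        | zero =>
          simp only [Nat.sub_zero, pow_zero, Nat.div_one]
          exact ⟨alive_child hR hj hal hkill, hng⟩
        | succ d =>
          have h1 : m + 1 - (d + 1) = m - d := by omega
          have h2 : (R * k' + j') / R ^ (d + 1) = k' / R ^ d := by
            rw [pow_succ', ← Nat.div_div_eq_div_mul, hdiv]
          rw [h1, h2]
          exact hk'.2 d (by omega)
    have hinj : ∀ x ∈ S, ∀ y ∈ S, R * x.1 + x.2 = R * y.1 + y.2 → x = y := by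
      rintro ⟨k, j⟩ hx ⟨l, i⟩ hy h
      simp only [S, Finset.mem_image, Finset.mem_sigma, Finset.mem_filter, Finset.mem_range,
        Prod.mk.injEq] at hx hy
      obtain ⟨⟨k', j'⟩, ⟨_, hj, _⟩, hk1, hj1⟩ := hx
      obtain ⟨⟨l', i'⟩, ⟨_, hi, _⟩, hl1, hi1⟩ := hy
      simp only at hj hi hk1 hj1 hl1 hi1 h
      subst hk1 hj1 hl1 hi1
      have e1 : (R * k' + j') / R = k' := by
        rw [Nat.mul_add_div hR, Nat.div_eq_of_lt hj, add_zero]
      have e2 : (R * l' + i') / R = l' := by
        rw [Nat.mul_add_div hR, Nat.div_eq_of_lt hi, add_zero]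
      have : k' = l' := by rw [← e1, ← e2, h]
      subst this
      have : j' = i' := by omega
      rw [this]
    apply Finset.card_le_card_of_injOn
      (fun x => if R * x.1 + x.2 ∈ A then Sum.inl (R * x.1 + x.2) else Sum.inr (R * x.1 + x.2))
    · intro x hx
      by_cases h : R * x.1 + x.2 ∈ A
      · simp only [h, if_true]
        exact Finset.mem_coe.mpr (Finset.inl_mem_disjSum.mpr h)
      · simp only [h, if_false]
        exact Finset.mem_coe.mpr (Finset.inr_mem_disjSum.mpr ((hmap x hx).resolve_left h))
    · intro x hx y hy hxy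
      simp only at hxy
      apply hinj x hx y hy
      by_cases h1 : R * x.1 + x.2 ∈ A <;> by_cases h2 : R * y.1 + y.2 ∈ A <;>
        simp only [h1, h2, if_true, if_false] at hxy
      · exact Sum.inl_injective hxy
      · exact absurd hxy (by simp)
      · exact absurd hxy (by simp)
      · exact Sum.inr_injective hxy
  exact le_trans hScard hSle

open Classical in
/-- The kills below a witness set, one class. -/
theorem kill_count (hR : 0 < R) {N m L : ℕ} (hL : 1 ≤ L) (hLm : L ≤ m + 1) (S : ℕ → Prop) (p : ℝ)
    (hS : ∀ J, Alive R Kill (m + 1 - L) J →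
      (((Finset.range (R ^ L)).filter (fun i => S (J * R ^ L + i))).card : ℝ) ≤ p * (R : ℝ) ^ L) :
    (((Finset.range (R ^ (m + 1))).filter
        (fun k => k / R ∈ Wit R H Kill N m ∧ S k)).card : ℝ) ≤
      p * (R : ℝ) ^ L * (Wit R H Kill N (m + 1 - L)).card := by
  set T := (Finset.range (R ^ (m + 1))).filter (fun k => k / R ∈ Wit R H Kill N m ∧ S k) with hT
  set V := Wit R H Kill N (m + 1 - L) with hV
  have hRL : 0 < R ^ L := by positivity
  have h1 : T.card ≤ (V.sigma (fun J => (Finset.range (R ^ L)).filter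
      (fun i => S (J * R ^ L + i)))).card := by
    apply Finset.card_le_card_of_injOn (fun k => ⟨k / R ^ L, k % R ^ L⟩)
    · intro k hk
      rw [hT, Finset.mem_coe, Finset.mem_filter, Finset.mem_range] at hk
      obtain ⟨hk1, hk2, hk3⟩ := hk
      rw [Finset.mem_coe, Finset.mem_sigma, Finset.mem_filter, Finset.mem_range]
      refine ⟨?_, Nat.mod_lt _ hRL, ?_⟩
      · have h2 := wit_anc hR hk2 (L - 1) (by omega)
        rw [Nat.div_div_eq_div_mul, ← pow_succ'] at h2
        have h3 : L - 1 + 1 = L := by omega
        have h4 : m - (L - 1) = m + 1 - L := by omega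
        rw [h3, h4] at h2
        exact h2
      · show S (k / R ^ L * R ^ L + k % R ^ L)
        rw [Nat.div_add_mod']
        exact hk3
    · intro a _ b _ hab
      simp only [Sigma.mk.injEq, heq_eq_eq] at hab
      rw [← Nat.div_add_mod a (R ^ L), ← Nat.div_add_mod b (R ^ L), hab.1, hab.2]
  rw [Finset.card_sigma] at h1
  calc (T.card : ℝ) ≤ ((∑ J ∈ V, ((Finset.range (R ^ L)).filter
        (fun i => S (J * R ^ L + i))).card : ℕ) : ℝ) := by exact_mod_cast h1
    _ = ∑ J ∈ V, (((Finset.range (R ^ L)).filter
        (fun i => S (J * R ^ L + i))).card : ℝ) := by push_cast; rfl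
    _ ≤ ∑ J ∈ V, p * (R : ℝ) ^ L := by
      apply Finset.sum_le_sum
      intro J hJ
      apply hS
      rw [hV] at hJ
      unfold Wit at hJ
      rw [Finset.mem_filter] at hJ
      have := (hJ.2 0 (Nat.zero_le _)).1
      simpa using this
    _ = _ := by rw [Finset.sum_const, nsmul_eq_mul]; ring

open Classical in
/-- **Engine.** -/
theorem engine {ι : Type*} (hR : 4 ≤ R) (hH : 2 * H ≤ R) (hroot : ¬ Kill 0 0)
    (C : ℕ → Finset ι) (L : ℕ → ι → ℕ) (p : ℕ → ι → ℝ) (S : ℕ → ι → ℕ → Prop)
    (hp : ∀ m c, 0 ≤ p m c)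
    (hL : ∀ m, 1 ≤ m → ∀ c ∈ C m, 1 ≤ L m c ∧ L m c ≤ m)
    (hS : ∀ m, 1 ≤ m → ∀ k, Kill m k → ∃ c ∈ C m, S m c k)
    (hcount : ∀ m, 1 ≤ m → ∀ c ∈ C m, ∀ J, Alive R Kill (m - L m c) J →
      (((Finset.range (R ^ L m c)).filter (fun i => S m c (J * R ^ L m c + i))).card : ℝ) ≤
        p m c * (R : ℝ) ^ L m c)
    (hsum : ∀ m, 1 ≤ m → ∑ c ∈ C m, p m c * 4 ^ L m c ≤ 1) (N : ℕ) :
    Good R H Kill N 0 0 := by
  by_contra hroot2
  have hR0 : 0 < R := by omega
  have hRr : (0 : ℝ) < R := by exact_mod_cast hR0
  set w : ℕ → ℝ := fun m => ((Wit R H Kill N m).card : ℝ) with hw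
  have hw0 : 1 ≤ w 0 := by
    have : 0 ∈ Wit R H Kill N 0 := by
      unfold Wit
      rw [Finset.mem_filter, Finset.mem_range]
      refine ⟨by simp, ?_⟩
      intro d hd
      have hd0 : d = 0 := by omega
      subst hd0
      refine ⟨?_, by simpa using hroot2⟩
      intro e he
      have he0 : e = 0 := by omega
      subst he0
      simpa using hroot
    have : 0 < (Wit R H Kill N 0).card := Finset.card_pos.mpr ⟨0, this⟩
    simp only [hw]
    exact_mod_cast this
  have hgrow : ∀ m, m ≤ N → 0 < w m ∧ ∀ m' < m, (R : ℝ) / 4 * w m' ≤ w (m' + 1) := by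
    intro m
    induction m with
    | zero => exact fun _ => ⟨by linarith, fun m' hm' => absurd hm' (Nat.not_lt_zero _)⟩
    | succ m ih =>
      intro hm
      obtain ⟨hpos, hall⟩ := ih (by omega)
      have hstep := wit_step (Kill := Kill) (H := H) hR0 (N := N) (m := m) (by omega)
      set B := (Finset.range (R ^ (m + 1))).filter
        (fun k => k / R ∈ Wit R H Kill N m ∧ Kill (m + 1) k) with hB
      -- backward growth
      have hback : ∀ L, 1 ≤ L → L ≤ m + 1 → w (m + 1 - L) * ((R : ℝ) / 4) ^ (L - 1) ≤ w m := by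
        intro L hL1
        induction L, hL1 using Nat.le_induction with
        | base => intro _; simp
        | succ L hL1 ihL =>
          intro hL2
          have h1 := ihL (by omega)
          have h2 := hall (m + 1 - (L + 1)) (by omega)
          have h3 : m + 1 - (L + 1) + 1 = m + 1 - L := by omega
          rw [h3] at h2
          have h4 : (L + 1 - 1) = (L - 1) + 1 := by omega
          rw [h4, pow_succ]
          calc _ = (R : ℝ) / 4 * w (m + 1 - (L + 1)) * ((R : ℝ) / 4) ^ (L - 1) := by ring
            _ ≤ w (m + 1 - L) * ((R : ℝ) / 4) ^ (L - 1) := by gcongr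
            _ ≤ w m := h1
      have hBcard : (B.card : ℝ) ≤ (R : ℝ) / 4 * w m := by
        have h1 : (B.card : ℝ) ≤ ∑ c ∈ C (m + 1), (((Finset.range (R ^ (m + 1))).filter
            (fun k => k / R ∈ Wit R H Kill N m ∧ S (m + 1) c k)).card : ℝ) := by
          have h2 : B ⊆ (C (m + 1)).biUnion (fun c => (Finset.range (R ^ (m + 1))).filter
            (fun k => k / R ∈ Wit R H Kill N m ∧ S (m + 1) c k)) := by
            intro k hk
            rw [hB, Finset.mem_filter] at hk
            obtain ⟨c, hc, hSc⟩ := hS (m + 1) (by omega) k hk.2.2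
            rw [Finset.mem_biUnion]
            exact ⟨c, hc, Finset.mem_filter.mpr ⟨hk.1, hk.2.1, hSc⟩⟩
          have h3 := le_trans (Finset.card_le_card h2) Finset.card_biUnion_le
          exact_mod_cast h3
        refine le_trans h1 ?_
        calc _ ≤ ∑ c ∈ C (m + 1), ((R : ℝ) / 4 * w m) * (p (m + 1) c * 4 ^ L (m + 1) c) := by
              apply Finset.sum_le_sum
              intro c hc
              obtain ⟨hL1, hL2⟩ := hL (m + 1) (by omega) c hc
              have h2 := kill_count (H := H) (Kill := Kill) (N := N) (m := m) hR0 hL1 hL2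
                (S (m + 1) c) (p (m + 1) c) (hcount (m + 1) (by omega) c hc)
              refine le_trans h2 ?_
              have h3 := hback _ hL1 hL2
              have h4 : (R : ℝ) ^ L (m + 1) c =
                  ((R : ℝ) / 4) ^ (L (m + 1) c - 1) * ((R : ℝ) / 4) * 4 ^ L (m + 1) c := by
                rw [← pow_succ, Nat.sub_add_cancel hL1, ← mul_pow]
                congr 1; ring
              rw [h4]
              have h5 := hp (m + 1) c
              calc _ = (p (m + 1) c * ((R : ℝ) / 4) * 4 ^ L (m + 1) c) *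
                    (w (m + 1 - L (m + 1) c) * ((R : ℝ) / 4) ^ (L (m + 1) c - 1)) := by
                    simp only [hw]; ring
                _ ≤ (p (m + 1) c * ((R : ℝ) / 4) * 4 ^ L (m + 1) c) * w m := by gcongr
                _ = _ := by ring
          _ = ((R : ℝ) / 4 * w m) * ∑ c ∈ C (m + 1), p (m + 1) c * 4 ^ L (m + 1) c := by
              rw [Finset.mul_sum]
          _ ≤ ((R : ℝ) / 4 * w m) * 1 := by
              apply mul_le_mul_of_nonneg_left (hsum (m + 1) (by omega))
              positivity
          _ = _ := mul_one _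
      have hstep' : ((R : ℝ) - H) * w m ≤ w (m + 1) + B.card := by
        have h1 : (((R - H) * (Wit R H Kill N m).card : ℕ) : ℝ) ≤
            (((Wit R H Kill N (m + 1)).card + B.card : ℕ) : ℝ) := by exact_mod_cast hstep
        push_cast [Nat.cast_sub (show H ≤ R by omega)] at h1
        exact h1
      have hH' : (2 : ℝ) * H ≤ R := by exact_mod_cast hH
      have hnew : (R : ℝ) / 4 * w m ≤ w (m + 1) := by nlinarith
      refine ⟨lt_of_lt_of_le (by positivity) hnew, ?_⟩
      intro m' hm'
      rcases Nat.lt_succ_iff_lt_or_eq.mp hm' with h | h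
      · exact hall m' h
      · rw [h]; exact hnew
  have hN := (hgrow N le_rfl).1
  have hempty : (Wit R H Kill N N).card = 0 := by
    rw [Finset.card_eq_zero]
    unfold Wit
    rw [Finset.filter_eq_empty_iff]
    intro k _ h
    have := h 0 (Nat.zero_le _)
    simp only [Nat.sub_zero, pow_zero, Nat.div_one, Nat.sub_self] at this
    exact this.2 this.1
  simp only [hw, hempty] at hN
  simp at hN

theorem Good.mono {n m k : ℕ} (h : Good R H Kill (n + 1) m k) : Good R H Kill n m k := by
  classical
  induction n generalizing m k with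
  | zero => exact h.alive
  | succ n ih =>
    refine ⟨h.1, le_trans h.2 (Finset.card_le_card ?_)⟩
    intro j hj
    rw [Finset.mem_filter] at hj ⊢
    exact ⟨hj.1, ih hj.2⟩

theorem Good.anti {n n' m k : ℕ} (hn : n ≤ n') (h : Good R H Kill n' m k) :
    Good R H Kill n m k := by
  induction n', hn using Nat.le_induction with
  | base => exact h
  | succ n' _ ih => exact ih h.mono

/-- the infinite good tree -/
theorem good_tree (hgood : ∀ N, Good R H Kill N 0 0) :
    ∃ G : ℕ → ℕ → Prop, G 0 0 ∧ (∀ m k, G m k → Alive R Kill m k) ∧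
      ∀ m k, G m k → ∃ s : Finset ℕ, H ≤ s.card ∧ ∀ j ∈ s, j < R ∧ G (m + 1) (R * k + j) := by
  classical
  refine ⟨fun m k => ∀ n, Good R H Kill n m k, hgood, fun m k h => h 0, ?_⟩
  intro m k h
  set s := (Finset.range R).filter (fun j => ∀ n, Good R H Kill n (m + 1) (R * k + j)) with hs
  refine ⟨s, ?_, ?_⟩
  · by_contra hcon
    push Not at hcon
    have hex : ∀ j ∈ (Finset.range R) \ s, ∃ n, ¬ Good R H Kill n (m + 1) (R * k + j) := by
      intro j hj
      rw [Finset.mem_sdiff, hs, Finset.mem_filter] at hj
      have := hj.2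
      push Not at this
      exact this hj.1
    choose! nn hnn using hex
    set M := ((Finset.range R) \ s).sup nn with hM
    have h1 := (h (M + 1)).2
    have h2 : ((Finset.range R).filter
        (fun j => Good R H Kill M (m + 1) (R * k + j))) ⊆ s := by
      intro j hj
      rw [Finset.mem_filter] at hj
      by_contra hjs
      have hj' : j ∈ (Finset.range R) \ s := Finset.mem_sdiff.mpr ⟨hj.1, hjs⟩
      exact hnn j hj' (hj.2.anti (Finset.le_sup hj'))
    have := Finset.card_le_card h2
    omega
  · intro j hj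
    rw [hs, Finset.mem_filter, Finset.mem_range] at hj
    exact hj

end Pool.H31.LW
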