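import Mathlib

/-!
Counting lattice points of a box in dimension three (no dual vector in the polar box).
-/

namespace Pool.H31.LW

/-- integer vectors -/
abbrev V3 := Fin 3 → ℤ

/-- the determinant of three integer vectors -/
def det3 (a b c : V3) : ℤ :=
  a 0 * (b 1 * c 2 - b 2 * c 1) - a 1 * (b 0 * c 2 - b 2 * c 0) + a 2 * (b 0 * c 1 - b 1 * c 0)

/-- the cross product of two integer vectors -/
def cr (a b : V3) : V3 :=
  ![a 1 * b 2 - a 2 * b 1, a 2 * b 0 - a 0 * b 2, a 0 * b 1 - a 1 * b 0]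

/-- the inner product -/
def dot (a b : V3) : ℤ := a 0 * b 0 + a 1 * b 1 + a 2 * b 2

theorem det3_eq_det (a b c : V3) : (Matrix.of ![a, b, c]).det = det3 a b c := by
  rw [Matrix.det_fin_three]
  simp [det3]
  ring

theorem cramer (a b c p : V3) :
    det3 a b c • p = det3 p b c • a + det3 a p c • b + det3 a b p • c := by
  ext i
  fin_cases i <;> simp [det3] <;> ring

theorem card_le_index (a b c : V3) (hD : det3 a b c ≠ 0) (P : Finset V3)
    (hP : ∀ p ∈ P, |det3 p b c| ≤ |det3 a b c| ∧ |det3 a p c| ≤ |det3 a b c| ∧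
      |det3 a b p| ≤ |det3 a b c|) :
    (P.card : ℤ) ≤ 27 * |det3 a b c| := by
  classical
  set D := det3 a b c with hDdef
  set v : Fin 3 → V3 := ![a, b, c] with hv
  have hdet : (Matrix.of v).det ≠ 0 := by
    rw [hv, det3_eq_det]; exact hD
  have hli : LinearIndependent ℤ v := by
    rw [Fintype.linearIndependent_iff]
    intro g hg i
    have h3 : g 0 • a + g 1 • b + g 2 • c = 0 := by
      have := hg
      rw [Fin.sum_univ_three] at this
      simpa [hv] using this
    have e0 : g 0 * D = 0 := by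
      have : det3 (g 0 • a + g 1 • b + g 2 • c) b c = g 0 * D := by
        rw [hDdef]; simp [det3]; ring
      rw [h3] at this
      rw [← this]; simp [det3]
    have e1 : g 1 * D = 0 := by
      have : det3 a (g 0 • a + g 1 • b + g 2 • c) c = g 1 * D := by
        rw [hDdef]; simp [det3]; ring
      rw [h3] at this
      rw [← this]; simp [det3]
    have e2 : g 2 * D = 0 := by
      have : det3 a b (g 0 • a + g 1 • b + g 2 • c) = g 2 * D := by
        rw [hDdef]; simp [det3]; ring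
      rw [h3] at this
      rw [← this]; simp [det3]
    have f0 := (mul_eq_zero.mp e0).resolve_right hD
    have f1 := (mul_eq_zero.mp e1).resolve_right hD
    have f2 := (mul_eq_zero.mp e2).resolve_right hD
    fin_cases i
    · exact f0
    · exact f1
    · exact f2
  set N : Submodule ℤ V3 := Submodule.span ℤ (Set.range v) with hN
  let bN : Module.Basis (Fin 3) ℤ N := Module.Basis.span hli
  have hcard : (Nat.card (V3 ⧸ N) : ℤ) = |D| := by
    rw [← Submodule.natAbs_det_basis_change (Pi.basisFun ℤ (Fin 3)) N bN]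
    have : (Pi.basisFun ℤ (Fin 3)).det ((↑) ∘ bN) = D := by
      rw [Module.Basis.det_apply]
      have h2 : ((Pi.basisFun ℤ (Fin 3)).toMatrix ((↑) ∘ bN)) = (Matrix.of v).transpose := by
        ext i j
        rw [Module.Basis.toMatrix_apply]
        have h5 : ((Module.Basis.span hli j : Submodule.span ℤ (Set.range v)) : V3) = v j :=
          congrArg Subtype.val (Module.Basis.span_apply hli j)
        have h6 : ((bN j : N) : V3) = v j := h5
        simp only [Pi.basisFun_repr, Function.comp_apply, h6, Matrix.transpose_apply,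
          Matrix.of_apply]
      rw [h2, Matrix.det_transpose, hv, det3_eq_det]
    rw [this]
    exact Int.natCast_natAbs D
  have hpos : 0 < Nat.card (V3 ⧸ N) := by
    have : 0 < |D| := abs_pos.mpr hD
    omega
  have : Finite (V3 ⧸ N) := (Nat.card_pos_iff.mp hpos).2
  have : Fintype (V3 ⧸ N) := Fintype.ofFinite _
  have hDp : 0 < |D| := abs_pos.mpr hD
  let T : Finset ((V3 ⧸ N) × (ℤ × ℤ × ℤ)) :=
    Finset.univ ×ˢ (Finset.Icc (-1) 1 ×ˢ (Finset.Icc (-1) 1 ×ˢ Finset.Icc (-1) 1))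
  have hT : (T.card : ℤ) = 27 * |D| := by
    have : T.card = Nat.card (V3 ⧸ N) * 27 := by
      simp only [T, Finset.card_product, Finset.card_univ]
      rw [Nat.card_eq_fintype_card]
      rfl
    rw [this]
    push_cast
    rw [hcard]; ring
  have hdiv : ∀ x : ℤ, |x| ≤ |D| → x / |D| ∈ Finset.Icc (-1 : ℤ) 1 := by
    intro x hx
    rw [Finset.mem_Icc]
    rw [abs_le] at hx
    constructor
    · rw [Int.le_ediv_iff_mul_le hDp]; linarith [hx.1]
    · have : x / |D| < 2 := by
        rw [Int.ediv_lt_iff_lt_mul hDp]; linarith [hx.2]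
      omega
  have hinj : ∀ x y : ℤ, ∀ n : ℤ, x - y = n * D → x / |D| = y / |D| → n = 0 := by
    intro x y n hxy hd
    have hx := Int.emod_add_mul_ediv x |D|
    have hy := Int.emod_add_mul_ediv y |D|
    have hx1 := Int.emod_nonneg x hDp.ne'
    have hx2 := Int.emod_lt_of_pos x hDp
    have hy1 := Int.emod_nonneg y hDp.ne'
    have hy2 := Int.emod_lt_of_pos y hDp
    rw [hd] at hx
    have h1 : |x - y| < |D| := by
      rw [abs_lt]; constructor <;> linarith
    rw [hxy, abs_mul] at h1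
    by_contra hn
    have : 1 ≤ |n| := Int.one_le_abs hn
    nlinarith
  rw [← hT]
  norm_cast
  apply Finset.card_le_card_of_injOn
    (fun p => (Submodule.Quotient.mk p, det3 p b c / |D|, det3 a p c / |D|, det3 a b p / |D|))
  · intro p hp
    have := hP p hp
    simp only [T, Finset.coe_product, Set.mem_prod, Finset.mem_coe, Finset.mem_univ, true_and]
    exact ⟨hdiv _ this.1, hdiv _ this.2.1, hdiv _ this.2.2⟩
  · intro p hp q hq hpq
    simp only [Prod.mk.injEq] at hpq
    obtain ⟨h0, h1, h2, h3⟩ := hpq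
    have hmem : p - q ∈ N := (Submodule.Quotient.eq N).mp h0
    rw [hN] at hmem
    have hspan : ∃ n : Fin 3 → ℤ, ∑ i, n i • v i = p - q := by
      rw [Submodule.mem_span_range_iff_exists_fun] at hmem
      exact hmem
    obtain ⟨n, hn⟩ := hspan
    rw [Fin.sum_univ_three] at hn
    have hn' : n 0 • a + n 1 • b + n 2 • c = p - q := by simpa [hv] using hn
    have e0 : det3 p b c - det3 q b c = n 0 * D := by
      have : det3 (p - q) b c = det3 p b c - det3 q b c := by simp [det3]; ring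
      rw [← this, ← hn', hDdef]; simp [det3]; ring
    have e1 : det3 a p c - det3 a q c = n 1 * D := by
      have : det3 a (p - q) c = det3 a p c - det3 a q c := by simp [det3]; ring
      rw [← this, ← hn', hDdef]; simp [det3]; ring
    have e2 : det3 a b p - det3 a b q = n 2 * D := by
      have : det3 a b (p - q) = det3 a b p - det3 a b q := by simp [det3]; ring
      rw [← this, ← hn', hDdef]; simp [det3]; ring
    have z0 := hinj _ _ _ e0 h1
    have z1 := hinj _ _ _ e1 h2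
    have z2 := hinj _ _ _ e2 h3
    rw [z0, z1, z2] at hn'
    simp at hn'
    exact (sub_eq_zero.mp hn'.symm)

/-- the real determinant -/
noncomputable def detR (a b c : Fin 3 → ℝ) : ℝ :=
  a 0 * (b 1 * c 2 - b 2 * c 1) - a 1 * (b 0 * c 2 - b 2 * c 0) + a 2 * (b 0 * c 1 - b 1 * c 0)

/-- the real cross product -/
noncomputable def crR (a b : Fin 3 → ℝ) : Fin 3 → ℝ :=
  ![a 1 * b 2 - a 2 * b 1, a 2 * b 0 - a 0 * b 2, a 0 * b 1 - a 1 * b 0]

theorem exists_prim (u : V3) (hu : u ≠ 0) :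
    ∃ (w e : V3) (d : ℤ), d ≠ 0 ∧ u = d • w ∧ dot w e = 1 := by
  set I : Ideal ℤ := Ideal.span (Set.range u) with hI
  have hp : I.IsPrincipal := inferInstance
  set d := hp.generator with hd
  have hId : I = Ideal.span {d} := (Ideal.span_singleton_generator I).symm
  have hdu : ∀ i, d ∣ u i := by
    intro i
    have : u i ∈ I := Ideal.subset_span ⟨i, rfl⟩
    rw [hId, Ideal.mem_span_singleton] at this
    exact this
  have hdI : d ∈ I := by rw [hId]; exact Ideal.mem_span_singleton_self d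
  rw [hI, Ideal.mem_span_range_iff_exists_fun] at hdI
  obtain ⟨e, he⟩ := hdI
  choose w hw using hdu
  have hd0 : d ≠ 0 := by
    intro h0
    apply hu
    ext i
    rw [hw i, h0]; simp
  refine ⟨w, e, d, hd0, ?_, ?_⟩
  · ext i
    rw [hw i]; simp
  · rw [Fin.sum_univ_three, hw 0, hw 1, hw 2] at he
    have : d * dot w e = d * 1 := by
      simp only [dot]; linarith
    exact mul_left_cancel₀ hd0 this

theorem abs_detR_le (a b c : Fin 3 → ℝ) (B : Fin 3 → ℝ) (hB : ∀ i, 0 ≤ B i)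
    (ha : ∀ i, |a i| ≤ B i) (hb : ∀ i, |b i| ≤ B i) (hc : ∀ i, |c i| ≤ B i) :
    |detR a b c| ≤ 6 * (B 0 * B 1 * B 2) := by
  have key : ∀ x y z X Y Z : ℝ, 0 ≤ X → 0 ≤ Y → 0 ≤ Z → |x| ≤ X → |y| ≤ Y → |z| ≤ Z →
      |x * y * z| ≤ X * Y * Z := by
    intro x y z X Y Z hX hY hZ hx hy hz
    rw [abs_mul, abs_mul]
    gcongr
  have k1 := key _ _ _ _ _ _ (hB 0) (hB 1) (hB 2) (ha 0) (hb 1) (hc 2)
  have k2 := key _ _ _ _ _ _ (hB 0) (hB 2) (hB 1) (ha 0) (hb 2) (hc 1)
  have k3 := key _ _ _ _ _ _ (hB 1) (hB 0) (hB 2) (ha 1) (hb 0) (hc 2)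
  have k4 := key _ _ _ _ _ _ (hB 1) (hB 2) (hB 0) (ha 1) (hb 2) (hc 0)
  have k5 := key _ _ _ _ _ _ (hB 2) (hB 0) (hB 1) (ha 2) (hb 0) (hc 1)
  have k6 := key _ _ _ _ _ _ (hB 2) (hB 1) (hB 0) (ha 2) (hb 1) (hc 0)
  rw [abs_le] at k1 k2 k3 k4 k5 k6 ⊢
  unfold detR
  constructor <;> nlinarith [k1.1, k1.2, k2.1, k2.2, k3.1, k3.2, k4.1, k4.2, k5.1, k5.2, k6.1, k6.2]

theorem abs_crR_le (a b : Fin 3 → ℝ) (B : Fin 3 → ℝ) (hB : ∀ i, 0 < B i)
    (ha : ∀ i, |a i| ≤ B i) (hb : ∀ i, |b i| ≤ B i) (i : Fin 3) :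
    |crR a b i| * B i ≤ 2 * (B 0 * B 1 * B 2) := by
  have key : ∀ x y X Y : ℝ, 0 ≤ X → 0 ≤ Y → |x| ≤ X → |y| ≤ Y → |x * y| ≤ X * Y := by
    intro x y X Y hX hY hx hy
    rw [abs_mul]
    gcongr
  have h2 : ∀ x y z t X Y : ℝ, 0 ≤ X → 0 ≤ Y → |x| ≤ X → |y| ≤ Y → |z| ≤ Y → |t| ≤ X →
      |x * y - z * t| ≤ 2 * (X * Y) := by
    intro x y z t X Y hX hY hx hy hz ht
    have k1 := key _ _ _ _ hX hY hx hy
    have k2 := key _ _ _ _ hY hX hz ht
    have := abs_sub (x * y) (z * t)
    nlinarith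
  have b0 := (hB 0).le
  have b1 := (hB 1).le
  have b2 := (hB 2).le
  fin_cases i
  · have := h2 (a 1) (b 2) (a 2) (b 1) (B 1) (B 2) b1 b2 (ha 1) (hb 2) (ha 2) (hb 1)
    have h3 := mul_le_mul_of_nonneg_right this b0
    simp only [crR]
    calc _ ≤ _ := h3
      _ = _ := by ring
  · have := h2 (a 2) (b 0) (a 0) (b 2) (B 2) (B 0) b2 b0 (ha 2) (hb 0) (ha 0) (hb 2)
    have h3 := mul_le_mul_of_nonneg_right this b1
    simp only [crR]
    calc _ ≤ _ := h3
      _ = _ := by ring
  · have := h2 (a 0) (b 1) (a 1) (b 0) (B 0) (B 1) b0 b1 (ha 0) (hb 1) (ha 1) (hb 0)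
    have h3 := mul_le_mul_of_nonneg_right this b2
    simp only [crR]
    calc _ ≤ _ := h3
      _ = _ := by ring

/-- **Box lemma.**  If no nonzero dual vector lies in the polar box shrunk by `c`, then the number
of pairwise non-parallel integer vectors of a box of volume `V` is at most `1 + 162 V / c`. -/
theorem box_count (f g : V3 → Fin 3 → ℝ)
    (hf : ∀ a b c, ((det3 a b c : ℤ) : ℝ) = detR (f a) (f b) (f c))
    (hg : ∀ a b i, g (cr a b) i = crR (f a) (f b) i)
    (hs : ∀ (k : ℤ) (w : V3) (i : Fin 3), g (k • w) i = k * g w i)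
    (B : Fin 3 → ℝ) (hB : ∀ i, 0 < B i) (c : ℝ) (hc : 0 < c) (hc1 : c ≤ 1)
    (hw : ∀ w : V3, w ≠ 0 → ∃ i, c < |g w i| * B i)
    (P : Finset V3) (hP : ∀ p ∈ P, ∀ i, |f p i| ≤ B i)
    (hpar : ∀ p ∈ P, ∀ q ∈ P, p ≠ q → cr p q ≠ 0) :
    (P.card : ℝ) ≤ 1 + 162 * (B 0 * B 1 * B 2) / c := by
  classical
  have hV : 0 < B 0 * B 1 * B 2 := by
    have := hB 0; have := hB 1; have := hB 2; positivity
  by_cases hone : P.card ≤ 1
  · have : (P.card : ℝ) ≤ 1 := by exact_mod_cast hone
    have : 0 ≤ 162 * (B 0 * B 1 * B 2) / c := by positivity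
    linarith
  have hne : P.Nonempty := by
    rw [← Finset.card_pos]; omega
  by_cases hdet : ∃ a ∈ P, ∃ b ∈ P, ∃ d ∈ P, det3 a b d ≠ 0
  · -- spanning case
    obtain ⟨t, ht, hmax⟩ := Finset.exists_max_image (P ×ˢ (P ×ˢ P))
      (fun t => |det3 t.1 t.2.1 t.2.2|) (hne.product (hne.product hne))
    obtain ⟨a, b, d⟩ := t
    simp only [Finset.mem_product] at ht hmax
    obtain ⟨ha, hb, hd⟩ := ht
    obtain ⟨a', ha', b', hb', d', hd', h0⟩ := hdet
    have hD : det3 a b d ≠ 0 := by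
      have := hmax (a', b', d') ⟨ha', hb', hd'⟩
      have h1 : 0 < |det3 a' b' d'| := abs_pos.mpr h0
      exact abs_pos.mp (lt_of_lt_of_le h1 this)
    have h1 := card_le_index a b d hD P (fun p hp =>
      ⟨hmax (p, b, d) ⟨hp, hb, hd⟩, hmax (a, p, d) ⟨ha, hp, hd⟩, hmax (a, b, p) ⟨ha, hb, hp⟩⟩)
    have h2 : (P.card : ℝ) ≤ 27 * |((det3 a b d : ℤ) : ℝ)| := by
      have : ((P.card : ℤ) : ℝ) ≤ ((27 * |det3 a b d| : ℤ) : ℝ) := by exact_mod_cast h1
      push_cast at this
      exact this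
    rw [hf] at h2
    have h3 := abs_detR_le (f a) (f b) (f d) B (fun i => (hB i).le) (hP a ha) (hP b hb) (hP d hd)
    have h4 : B 0 * B 1 * B 2 ≤ B 0 * B 1 * B 2 / c := by
      rw [le_div_iff₀ hc]; nlinarith
    have h5 : 162 * (B 0 * B 1 * B 2) / c = 162 * (B 0 * B 1 * B 2 / c) := by ring
    rw [h5]
    linarith
  · -- planar case
    push Not at hdet
    have hex : ∃ a ∈ P, ∃ b ∈ P, a ≠ b := by
      have : 1 < P.card := by omega
      exact Finset.one_lt_card.mp this |>.imp fun a h => by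
        obtain ⟨ha, b, hb, hab⟩ := h
        exact ⟨ha, b, hb, hab⟩
    obtain ⟨a0, ha0, b0, hb0, hab⟩ := hex
    have hu := hpar a0 ha0 b0 hb0 hab
    obtain ⟨w, e, d, hd0, huw, hwe⟩ := exists_prim _ hu
    have hw0 : w ≠ 0 := by
      rintro rfl; simp [dot] at hwe
    have horth : ∀ p ∈ P, dot p w = 0 := by
      intro p hp
      have h1 := hdet a0 ha0 b0 hb0 p hp
      have h2 : det3 a0 b0 p = d * dot p w := by
        have : det3 a0 b0 p = dot p (cr a0 b0) := by
          simp [det3, dot, cr]; ring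
        rw [this, huw]; simp [dot]; ring
      rw [h2] at h1
      exact (mul_eq_zero.mp h1).resolve_left hd0
    have hk : ∀ p ∈ P, ∀ q ∈ P, cr p q = (det3 p q e) • w := by
      intro p hp q hq
      have hpw := horth p hp
      have hqw := horth q hq
      simp only [dot] at hpw hqw hwe
      ext i
      fin_cases i
      · simp only [cr, det3, Pi.smul_apply, smul_eq_mul]
        simp
        linear_combination (-(p 1 * q 2 - p 2 * q 1)) * hwe + (e 1 * q 2 - e 2 * q 1) * hpw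
          - (e 1 * p 2 - e 2 * p 1) * hqw
      · simp only [cr, det3, Pi.smul_apply, smul_eq_mul]
        simp
        linear_combination (-(p 2 * q 0 - p 0 * q 2)) * hwe + (e 2 * q 0 - e 0 * q 2) * hpw
          - (e 2 * p 0 - e 0 * p 2) * hqw
      · simp only [cr, det3, Pi.smul_apply, smul_eq_mul]
        simp
        linear_combination (-(p 0 * q 1 - p 1 * q 0)) * hwe + (e 0 * q 1 - e 1 * q 0) * hpw
          - (e 0 * p 1 - e 1 * p 0) * hqw
    obtain ⟨t, ht, hmax⟩ := Finset.exists_max_image (P ×ˢ P)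
      (fun t => |det3 t.1 t.2 e|) (hne.product hne)
    obtain ⟨a, b⟩ := t
    simp only [Finset.mem_product] at ht hmax
    obtain ⟨ha, hb⟩ := ht
    have hD : det3 a b e ≠ 0 := by
      have h1 := hmax (a0, b0) ⟨ha0, hb0⟩
      have h2 : det3 a0 b0 e ≠ 0 := by
        intro h0
        have := hk a0 ha0 b0 hb0
        rw [h0, zero_smul] at this
        exact hu this
      exact abs_pos.mp (lt_of_lt_of_le (abs_pos.mpr h2) h1)
    have h1 := card_le_index a b e hD P (fun p hp =>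
      ⟨hmax (p, b) ⟨hp, hb⟩, hmax (a, p) ⟨ha, hp⟩, by
        rw [hdet a ha b hb p hp, abs_zero]; exact abs_nonneg _⟩)
    have h2 : (P.card : ℝ) ≤ 27 * |((det3 a b e : ℤ) : ℝ)| := by
      have : ((P.card : ℤ) : ℝ) ≤ ((27 * |det3 a b e| : ℤ) : ℝ) := by exact_mod_cast h1
      push_cast at this
      exact this
    obtain ⟨i, hi⟩ := hw w hw0
    have h3 := abs_crR_le (f a) (f b) B hB (hP a ha) (hP b hb) i
    rw [← hg a b i, hk a ha b hb, hs, abs_mul] at h3
    have h4 : |((det3 a b e : ℤ) : ℝ)| * c ≤ 2 * (B 0 * B 1 * B 2) := by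
      have h5 : |((det3 a b e : ℤ) : ℝ)| * c ≤ |((det3 a b e : ℤ) : ℝ)| * (|g w i| * B i) :=
        mul_le_mul_of_nonneg_left hi.le (abs_nonneg _)
      calc _ ≤ _ := h5
        _ = |((det3 a b e : ℤ) : ℝ)| * |g w i| * B i := by ring
        _ ≤ _ := h3
    have h5 : |((det3 a b e : ℤ) : ℝ)| ≤ 2 * (B 0 * B 1 * B 2) / c := by
      rw [le_div_iff₀ hc]; exact h4
    have h6 : 162 * (B 0 * B 1 * B 2) / c = 81 * (2 * (B 0 * B 1 * B 2) / c) := by ring
    rw [h6]
    have h7 : 0 ≤ 2 * (B 0 * B 1 * B 2) / c := by positivity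
    linarith

end Pool.H31.LW
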